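import Pool.Agent.X30.MaierI

set_option autoImplicit false

/-!
# How often the intervals `(n, n + (log n)^B]` contain too many or too few primes

Maier (1985) proved that for every `B > 2` some intervals `(x, x + (log x)^B]`, `x` arbitrarily large, contain more than
`(1 + δ_B) (log x)^(B-1)` primes and others fewer than `(1 - δ_B) (log x)^(B-1)`. Here: for every `B ≥ 1` and every
`ε > 0` there is `δ > 0` such that both kinds of intervals occur for at least `X exp (-(log X)^ε)` of the integers
`n ≤ X`, for all large `X`. In Cramér's model the number of such `n ≤ X` is `X exp (-c (log X)^(B-1))` up to lower order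
terms in the exponent, `c = c(δ) > 0`, so the model predicts the wrong frequency for every `B > 1`; for `1 < B ≤ 2`,
where such intervals do occur in the model, the frequency is the only way to see the failure.

Method: the rows `n ≡ 0 (mod W)` of the Maier matrix, where `W ≤ exp (C (log X)^(2B/(2k+1)))` is the product of the
primes of the interval `(Y^(1/(k+1)), Y^(2/(2k+1))]`, `Y = (log X)^B`, without exceptional primes. No integer up to `Y`
has `k + 1` prime factors in that interval, so inclusion-exclusion for the integers up to `Y` prime to `W` stops at `k`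
factors, and the error against the product has the sign `(-1)^k` and relative size bounded from below; both parities
of `k` are available. Library: the distribution of the primes in progressions to smooth moduli and the Maier matrix of
`Pool.Agent.H378R2` and `Pool.Agent.H510R2.Maier` (helpers 378 and 510).
-/

namespace Pool.Agent.Results.MP_f9960f_nt.FrequencyOfMaierDeviations

theorem result (B ε : ℝ) (hB : 1 ≤ B) (hε : 0 < ε) : ∃ δ : ℝ, 0 < δ ∧ ∃ X₀ : ℝ, ∀ X : ℝ, X₀ ≤ X →
    X * Real.exp (-(Real.log X) ^ ε) ≤
      (((Finset.Icc 1 ⌊X⌋₊).filter (fun n : ℕ => (1 + δ) * (Real.log n) ^ (B - 1) ≤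
        (((Finset.Ioc n ⌊(n : ℝ) + (Real.log n) ^ B⌋₊).filter Nat.Prime).card : ℝ))).card : ℝ) ∧
    X * Real.exp (-(Real.log X) ^ ε) ≤
      (((Finset.Icc 1 ⌊X⌋₊).filter (fun n : ℕ =>
        (((Finset.Ioc n ⌊(n : ℝ) + (Real.log n) ^ B⌋₊).filter Nat.Prime).card : ℝ) ≤
          (1 - δ) * (Real.log n) ^ (B - 1))).card : ℝ) :=
  Pool.Agent.X30.MI.main B ε hB hε

end Pool.Agent.Results.MP_f9960f_nt.FrequencyOfMaierDeviations
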