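import Pool.Agent.X10.ML.Counts

set_option autoImplicit false

/-!
# Prime representing functions and record gaps

Mills proved that there are `c` and `θ > 1` such that the integer part of `θ ^ (c ^ n)` is prime for every `n`.
Here these primes are moreover followed by prime gaps of the record size, or by gaps of the average order, in an
arbitrarily prescribed pattern: for each `c ≥ c₀` and EACH set `S` of indices the set of the `θ` such that, for all
large `n`, the integer part `p` of `θ ^ (c ^ n)` is prime, the next prime is at least `p + κ f(p)` if `n ∈ S`,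
and the next prime is at most `p + C log p` if `n ∉ S`, has Hausdorff dimension `1` in each interval of `(1, ∞)`.
Here `f(x) = log x (log₂ x)² log₄ x / (log₃ x)²`.
-/

namespace Pool.Agent.Results.MP_f9960f_nt.MillsPrimesRecordGaps

/-- The record scale `f(x) = log x (log₂ x)² log₄ x / (log₃ x)²` (iterated natural logarithms). -/
noncomputable def f (x : ℝ) : ℝ :=
  Real.log x * (Real.log (Real.log x)) ^ 2 * Real.log (Real.log (Real.log (Real.log x))) /
    (Real.log (Real.log (Real.log x))) ^ 2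

/-- The next prime after `p` is at least `p + κ f(p)`. -/
def BeforeRecordGap (κ : ℝ) (p : ℕ) : Prop := ∀ q : ℕ, q.Prime → p < q → (p : ℝ) + κ * f p ≤ q

/-- The next prime after `p` is at most `p + C log p`. -/
def BeforeShortGap (C : ℝ) (p : ℕ) : Prop := ∃ q : ℕ, q.Prime ∧ p < q ∧ (q : ℝ) ≤ p + C * Real.log p

/-- For all large `n` the integer part `p` of `θ ^ (c ^ n)` is a prime, followed by a gap at least `κ f(p)` if
`n ∈ S`, and followed by a gap at most `C log p` if `n ∉ S`. -/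
def Represents (c κ C : ℝ) (S : Set ℕ) (θ : ℝ) : Prop :=
  ∃ N : ℕ, ∀ n : ℕ, N ≤ n → (⌊θ ^ (c ^ n)⌋₊).Prime ∧
    (n ∈ S → BeforeRecordGap κ ⌊θ ^ (c ^ n)⌋₊) ∧ (n ∉ S → BeforeShortGap C ⌊θ ^ (c ^ n)⌋₊)

/-- There are constants `c₀ > 1` and `C` such that for every real `c ≥ c₀`:
(1) for every `s < 1` there is `κ > 0` such that for every set `S` of indices and every open set `U` that meets
`(1, ∞)` the `θ ∈ U`, `θ > 1`, with `Represents c κ C S θ` form a set of Hausdorff dimension at least `s`;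
(2) for every set `S` of indices and every such `U` the `θ ∈ U`, `θ > 1`, for which `Represents c κ C S θ` holds
for some `κ > 0` form a set of Hausdorff dimension `1`. -/
theorem result : ∃ c₀ C : ℝ, 1 < c₀ ∧ 0 < C ∧ ∀ c : ℝ, c₀ ≤ c →
    (∀ s : ℝ, s < 1 → ∃ κ : ℝ, 0 < κ ∧ ∀ (S : Set ℕ) (U : Set ℝ), IsOpen U → (U ∩ Set.Ioi 1).Nonempty →
      ENNReal.ofReal s ≤ dimH {θ : ℝ | θ ∈ U ∧ 1 < θ ∧ Represents c κ C S θ}) ∧
    ∀ (S : Set ℕ) (U : Set ℝ), IsOpen U → (U ∩ Set.Ioi 1).Nonempty →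
      dimH {θ : ℝ | θ ∈ U ∧ 1 < θ ∧ ∃ κ : ℝ, 0 < κ ∧ Represents c κ C S θ} = 1 := by
  classical
  obtain ⟨c₁, hc₁, h1⟩ := Pool.Agent.X10.ML.count_rec
  obtain ⟨c₂, C, hc₂, hC, h2⟩ := Pool.Agent.X10.ML.count_small
  have main : ∀ c : ℝ, max c₁ c₂ ≤ c → ∀ s : ℝ, 0 < s → s < 1 → ∃ κ : ℝ, 0 < κ ∧
      ∀ (S : Set ℕ) (U : Set ℝ), IsOpen U → (U ∩ Set.Ioi 1).Nonempty →
      ENNReal.ofReal s ≤ dimH {θ : ℝ | θ ∈ U ∧ 1 < θ ∧ Represents c κ C S θ} := by
    intro c hc s hs0 hs1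
    have hc1 : 1 < c := lt_of_lt_of_le hc₁ ((le_max_left _ _).trans hc)
    have hη := Pool.Agent.X10.ML.eta_pos hc1 hs1
    have hη2 : Pool.Agent.X10.ML.eta c s ≤ (c - 1) / 2 := by
      rw [Pool.Agent.X10.ML.eta]
      have e1 : min (c - 1) 1 ≤ c - 1 := min_le_left _ _
      have e2 : 0 < min (c - 1) 1 := lt_min (by linarith) one_pos
      nlinarith
    obtain ⟨κ, hκ, x₁, g1⟩ := h1 c ((le_max_left _ _).trans hc) _ hη hη2
    obtain ⟨x₂, g2⟩ := h2 c ((le_max_right _ _).trans hc) _ hη hη2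
    refine ⟨κ, hκ, fun S U hU hne => ?_⟩
    have key := Pool.Agent.X10.ML.mills c s hc1 hs0 hs1
      (fun n => {p | (n ∈ S → Pool.Agent.X10.ML.Rec κ p) ∧ (n ∉ S → Pool.Agent.X10.ML.Small C p)})
      0 (max x₁ x₂) (by
        intro n _ x hx
        by_cases hn : n + 1 ∈ S
        · obtain ⟨T, hT1, hT2⟩ := g1 x ((le_max_left _ _).trans hx)
          exact ⟨T, fun y hy => ⟨⟨fun _ => (hT1 y hy).1, fun h => absurd hn h⟩, (hT1 y hy).2⟩, hT2⟩
        · obtain ⟨T, hT1, hT2⟩ := g2 x ((le_max_right _ _).trans hx)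
          exact ⟨T, fun y hy => ⟨⟨fun h => absurd h hn, fun _ => (hT1 y hy).1⟩, (hT1 y hy).2⟩, hT2⟩)
      U hU hne
    refine key.trans (dimH_mono ?_)
    rintro θ ⟨t1, t2, N, t3⟩
    refine ⟨t1, t2, N, fun n hn => ?_⟩
    obtain ⟨a1, a2⟩ := t3 n hn
    refine ⟨?_, fun h => ?_, fun h => ?_⟩
    · by_cases h : n ∈ S
      · exact (a1 h).1
      · exact (a2 h).1
    · exact (a1 h).2
    · exact (a2 h).2
  refine ⟨max c₁ c₂, C, lt_max_of_lt_left hc₁, hC, fun c hc => ⟨fun s hs => ?_, fun S U hU hne => ?_⟩⟩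
  · rcases le_or_gt s 0 with h0 | h0
    · obtain ⟨κ, hκ, h⟩ := main c hc (1 / 2) (by norm_num) (by norm_num)
      refine ⟨κ, hκ, fun S U _ _ => ?_⟩
      rw [ENNReal.ofReal_of_nonpos h0]
      exact zero_le
    · exact main c hc s h0 hs
  · apply le_antisymm
    · refine (dimH_mono (Set.subset_univ _)).trans ?_
      rw [Real.dimH_univ]
    · by_contra hcon
      push Not at hcon
      obtain ⟨D, hD⟩ : ∃ D, D = dimH {θ : ℝ | θ ∈ U ∧ 1 < θ ∧ ∃ κ : ℝ, 0 < κ ∧ Represents c κ C S θ} :=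
        ⟨_, rfl⟩
      rw [← hD] at hcon
      have hDt : D ≠ ⊤ := ne_top_of_lt hcon
      have hD1 : D.toReal < 1 := by
        have := (ENNReal.toReal_lt_toReal hDt ENNReal.one_ne_top).2 hcon
        simpa using this
      obtain ⟨s, hs1, hs2⟩ := exists_between hD1
      have hs0 : 0 < s := lt_of_le_of_lt ENNReal.toReal_nonneg hs1
      obtain ⟨κ, hκ, h⟩ := main c hc s hs0 hs2
      have h3 : ENNReal.ofReal s ≤ D := by
        rw [hD]
        refine (h S U hU hne).trans (dimH_mono ?_)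
        rintro θ ⟨t1, t2, t3⟩
        exact ⟨t1, t2, κ, hκ, t3⟩
      have h4 := ENNReal.toReal_mono hDt h3
      rw [ENNReal.toReal_ofReal hs0.le] at h4
      linarith

end Pool.Agent.Results.MP_f9960f_nt.MillsPrimesRecordGaps
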