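import Pool.Agent.X26.MS.Cnt

set_option autoImplicit false

/-!
# Deviations from Cramér's model that persist at all scales up to every power of the logarithm

Maier (1985) found, for a given exponent `B > 2`, intervals of length `(log x) ^ B` with too many or too few primes.
Here one and the same starting point works for ALL lengths at once: for every `N` and `ε > 0` there is `δ > 0` such
that for at least `X exp (-(log X) ^ ε)` primes `p ≤ X` the number of the primes in `[p, p + h)` is at least
`(1 + δ) h / log p` for ALL `1 ≤ h ≤ (log p) ^ N` (equivalently: the average of the `j` gaps after `p` is at most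
`log p / (1 + δ)` for all these `j`), and for at least `X exp (-(log X) ^ ε)` integers `n ≤ X` the number of the primes
in `(n, n + h]` is at most `(1 - δ) h / log n` for ALL `1 ≤ h ≤ (log n) ^ N`.

Method: the frequency of Maier's deviations at the single exponent `N + 2` (`Pool.Agent.X30.MI.main`, the result
`FrequencyOfMaierDeviations` of this problem) and a rising sun lemma.
-/

open Finset

namespace Pool.Agent.Results.MP_f9960f_nt.PersistentDeviations

open Classical in
/-- Let `N` be a natural number and `ε > 0`. There are `δ > 0` and `X₀` such that for all `X ≥ X₀`: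

1. for at least `X exp (-(log X) ^ ε)` primes `p ≤ X` there are at least `(1 + δ) h / log p` primes in `[p, p + h)` for
ALL integers `h` with `1 ≤ h ≤ (log p) ^ N`;

2. for at least `X exp (-(log X) ^ ε)` integers `n ≤ X` there are at most `(1 - δ) h / log n` primes in `(n, n + h]` for
ALL integers `h` with `1 ≤ h ≤ (log n) ^ N`. -/
theorem result (N : ℕ) (ε : ℝ) (hε : 0 < ε) : ∃ δ : ℝ, 0 < δ ∧ ∃ X₀ : ℝ, ∀ X : ℝ, X₀ ≤ X →
    X * Real.exp (-(Real.log X) ^ ε) ≤
      (((Finset.Icc 1 ⌊X⌋₊).filter (fun p : ℕ => p.Prime ∧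
        ∀ h : ℕ, 1 ≤ h → (h : ℝ) ≤ (Real.log p) ^ N →
          (1 + δ) * h / Real.log p ≤ (((Finset.Ico p (p + h)).filter Nat.Prime).card : ℝ))).card : ℝ) ∧
    X * Real.exp (-(Real.log X) ^ ε) ≤
      (((Finset.Icc 1 ⌊X⌋₊).filter (fun n : ℕ =>
        ∀ h : ℕ, 1 ≤ h → (h : ℝ) ≤ (Real.log n) ^ N →
          (((Finset.Ioc n (n + h)).filter Nat.Prime).card : ℝ) ≤ (1 - δ) * h / Real.log n)).card : ℝ) := by
  obtain ⟨δ, hδ, X₀, h⟩ := Pool.Agent.X26.MS.main N hε
  refine ⟨δ, hδ, X₀, fun X hX => ?_⟩
  obtain ⟨h1, h2⟩ := h X hX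
  refine ⟨h1.trans (le_of_eq ?_), h2.trans (le_of_eq ?_)⟩ <;> congr!

end Pool.Agent.Results.MP_f9960f_nt.PersistentDeviations
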