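import Pool.Agent.X164.MP.Main

set_option autoImplicit false

open Polynomial

namespace Pool.Agent.Results.MP_f9960f_nt.PolynomialsOfProductsModP

/-- The record scale `f(x) = log x (log₂ x)² log₄ x / (log₃ x)²` (iterated natural logarithms): the
order of the largest prime gaps which are known to occur up to `x`. -/
noncomputable def f (x : ℝ) : ℝ :=
  Real.log x * (Real.log (Real.log x)) ^ 2 * Real.log (Real.log (Real.log (Real.log x))) /
    (Real.log (Real.log (Real.log x))) ^ 2

/-- **Record prime gaps around polynomial values of products modulo a prime.** For all `r`, `k` and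
`ε > 0` there are `κ > 0` and `p₀` with the following property. Let `p ≥ p₀` be a prime, let
`F 0, …, F (r - 1)` be polynomials over `ℤ/p` of degree at most `k` of which no nontrivial linear
combination is constant, and let `A`, `B` be ARBITRARY sets of residues modulo `p` with
`|A| |B| ≥ p ^ (1 + ε)`. Then there are `a ∈ A` and `b ∈ B` such that no prime `q` is within `κ f(p)`
of the least nonnegative residue modulo `p` of any of the numbers `F j (a b)`.

Special cases: `F = X`, `A = c H`, `B = H` for a subgroup `H` of the multiplicative group of order at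
least `p ^ (1 / 2 + ε)`: every coset of `H` contains an `x` whose least residue (even those of
`x, x², …, x^k`, all at once) lies in a record prime gap, e.g. a `d`-th power residue,
`d ≤ p ^ (1 / 2 - ε)`, or a power `g ^ n` of a primitive root, `n` in a given interval of length
`p ^ (1 / 2 + ε)`. -/
theorem result (r k : ℕ) (hr : 1 ≤ r) (ε : ℝ) (hε : 0 < ε) : ∃ κ : ℝ, 0 < κ ∧ ∃ p₀ : ℕ,
    ∀ (p : ℕ) [Fact p.Prime], p₀ ≤ p → ∀ F : Fin r → (ZMod p)[X], (∀ j, (F j).natDegree ≤ k) →
      (∀ (h : Fin r → ZMod p) (c : ZMod p), ∑ j, C (h j) * F j = C c → h = 0) →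
      ∀ A B : Finset (ZMod p), (p : ℝ) ^ (1 + ε) ≤ A.card * B.card →
        ∃ a ∈ A, ∃ b ∈ B, ∀ j, ∀ q : ℕ, q.Prime →
          κ * f p < |(q : ℝ) - (((F j).eval (a * b)).val : ℝ)| :=
  Pool.Agent.X164.MP.products r k hr ε hε

end Pool.Agent.Results.MP_f9960f_nt.PolynomialsOfProductsModP
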